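import Mathlib

/-!
# Numbers for the lower bound (import Mathlib only)

Put `l = log n`, `lam = l ^ 2`, `h = n - m`. As `log m ≤ l` and `exp (-y) - 1 ≤ 0`, every factor `1 / log m` may be replaced by
`1 / l`; drop the terms with `h < K`, `K = ⌈lam⌉ + 1`; for `h ≥ K` use `exp (-y) - 1 ≤ -y + y ^ 2` with `y = lam / h ≤ 1`.
-/

set_option autoImplicit false

open Filter Real

namespace Pool.Agent.H63.CM

private theorem nl_harm (K : ℕ) (hK : 1 ≤ K) : ∀ M : ℕ, K ≤ M →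
    log M - log K ≤ ∑ h ∈ Finset.Ico K M, 1 / (h : ℝ) := by
  intro M hM
  induction M, hM using Nat.le_induction with
  | base => simp
  | succ M hM ih =>
    rw [Finset.sum_Ico_succ_top hM]
    have hM0 : (0 : ℝ) < M := by exact_mod_cast lt_of_lt_of_le hK hM
    have h1 : log ((M + 1 : ℕ) : ℝ) - log M ≤ 1 / (M : ℝ) := by
      have h2 : log ((M + 1 : ℕ) : ℝ) - log M = log (1 + 1 / (M : ℝ)) := by
        rw [← Real.log_div (by positivity) hM0.ne']
        congr 1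
        push_cast
        field_simp
      rw [h2]
      have h3 := Real.log_le_sub_one_of_pos (show (0 : ℝ) < 1 + 1 / (M : ℝ) by positivity)
      linarith
    linarith

private theorem nl_sq (K : ℕ) (hK : 2 ≤ K) : ∀ M : ℕ, K ≤ M →
    ∑ h ∈ Finset.Ico K M, 1 / (h : ℝ) ^ 2 ≤ 1 / ((K : ℝ) - 1) - 1 / ((M : ℝ) - 1) := by
  intro M hM
  induction M, hM using Nat.le_induction with
  | base => simp
  | succ M hM ih =>
    rw [Finset.sum_Ico_succ_top hM]
    have hM2 : (2 : ℝ) ≤ M := by exact_mod_cast hK.trans hM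
    have h1 : 1 / (M : ℝ) ^ 2 ≤ 1 / ((M : ℝ) - 1) - 1 / (((M + 1 : ℕ) : ℝ) - 1) := by
      have h0 : (0 : ℝ) < (M : ℝ) - 1 := by linarith
      have e0 : ((M + 1 : ℕ) : ℝ) - 1 = M := by
        push_cast
        ring
      have hM0 : (M : ℝ) ≠ 0 := by linarith
      have hM1 : (M : ℝ) - 1 ≠ 0 := h0.ne'
      have e1 : 1 / ((M : ℝ) - 1) - 1 / (((M + 1 : ℕ) : ℝ) - 1) = 1 / (((M : ℝ) - 1) * M) := by
        rw [e0, div_sub_div _ _ hM1 hM0]
        congr 1
        ring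
      rw [e1]
      apply one_div_le_one_div_of_le (by positivity)
      nlinarith
    linarith

private theorem nl_exp {y : ℝ} (h0 : 0 ≤ y) (h1 : y ≤ 1) : exp (-y) - 1 ≤ -y + y ^ 2 := by
  have h := Real.abs_exp_sub_one_sub_id_le (x := -y) (by rw [abs_neg, abs_of_nonneg h0]; exact h1)
  have h2 := (abs_le.1 h).2
  rw [neg_sq] at h2
  linarith

private theorem nl_core {n : ℕ} {l ε : ℝ} (hl : l = log n) (hl2 : 2 ≤ l) (hn : l ^ 2 + 4 ≤ n)
    (hε : 5 ≤ ε * log l) :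
    l ^ 2 * (1 - (2 + ε) * log l / l) +
      ∑ m ∈ Finset.Ico 3 n, (1 / log m) * (exp (-(l ^ 2 * (1 / ((n : ℝ) - m)))) - 1) ≤ -(2 * l) := by
  have hl0 : 0 < l := by linarith
  have hn8 : (8 : ℝ) ≤ n := by nlinarith
  have hn8' : 8 ≤ n := by exact_mod_cast hn8
  obtain ⟨lam, hlam⟩ : ∃ lam : ℝ, lam = l ^ 2 := ⟨_, rfl⟩
  have hlam4 : 4 ≤ lam := by rw [hlam]; nlinarith
  rw [← hlam] at hn ⊢
  -- replace `log m` by `l`
  have h1 : ∑ m ∈ Finset.Ico 3 n, (1 / log m) * (exp (-(lam * (1 / ((n : ℝ) - m)))) - 1) ≤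
      ∑ m ∈ Finset.Ico 3 n, (1 / l) * (exp (-(lam * (1 / (((n - m : ℕ) : ℝ))))) - 1) := by
    refine Finset.sum_le_sum fun m hm => ?_
    rw [Finset.mem_Ico] at hm
    have hmn : (m : ℝ) < n := by exact_mod_cast hm.2
    have hm3 : (3 : ℝ) ≤ m := by exact_mod_cast hm.1
    have hlm : 0 < log m := Real.log_pos (by linarith)
    have hlml : log m ≤ l := by
      rw [hl]
      exact Real.log_le_log (by linarith) hmn.le
    have e1 : ((n - m : ℕ) : ℝ) = (n : ℝ) - m := by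
      rw [Nat.cast_sub hm.2.le]
    rw [e1]
    have h2 : exp (-(lam * (1 / ((n : ℝ) - m)))) - 1 ≤ 0 := by
      have h3 : 0 ≤ lam * (1 / ((n : ℝ) - m)) := by
        have : 0 < (n : ℝ) - m := by linarith
        positivity
      have h4 := Real.exp_le_one_iff.mpr (show -(lam * (1 / ((n : ℝ) - m))) ≤ 0 by linarith)
      linarith
    exact mul_le_mul_of_nonpos_right (one_div_le_one_div_of_le hlm hlml) h2
  have h2 : ∑ m ∈ Finset.Ico 3 n, (1 / l) * (exp (-(lam * (1 / (((n - m : ℕ) : ℝ))))) - 1) =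
      ∑ h ∈ Finset.Ico 1 (n - 2), (1 / l) * (exp (-(lam * (1 / (h : ℝ)))) - 1) := by
    have h3 := Finset.sum_Ico_reflect (fun h : ℕ => (1 / l) * (exp (-(lam * (1 / (h : ℝ)))) - 1)) 3
      (show n ≤ n + 1 by omega)
    rw [h3]
    have e1 : n + 1 - n = 1 := by omega
    have e2 : n + 1 - 3 = n - 2 := by omega
    rw [e1, e2]
  obtain ⟨K, hK⟩ : ∃ K : ℕ, K = ⌈lam⌉₊ + 1 := ⟨_, rfl⟩
  have hKlo : lam ≤ (K : ℝ) - 1 := by
    rw [hK]
    push_cast
    linarith [Nat.le_ceil lam]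
  have hKhi : (K : ℝ) ≤ lam + 2 := by
    rw [hK]
    push_cast
    linarith [Nat.ceil_lt_add_one (show 0 ≤ lam by linarith)]
  have hK2 : 2 ≤ K := by
    have : (2 : ℝ) ≤ K := by linarith
    exact_mod_cast this
  have hcast : ((n - 2 : ℕ) : ℝ) = (n : ℝ) - 2 := by
    rw [Nat.cast_sub (by omega)]
    norm_num
  have hKn : K ≤ n - 2 := by
    have : (K : ℝ) ≤ ((n - 2 : ℕ) : ℝ) := by
      rw [hcast]
      linarith
    exact_mod_cast this
  have h3 : ∑ h ∈ Finset.Ico 1 (n - 2), (1 / l) * (exp (-(lam * (1 / (h : ℝ)))) - 1) ≤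
      ∑ h ∈ Finset.Ico K (n - 2), (1 / l) * (-(lam * (1 / (h : ℝ))) + lam ^ 2 * (1 / (h : ℝ) ^ 2)) := by
    rw [← Finset.sum_Ico_consecutive _ (show 1 ≤ K by omega) hKn]
    have h4 : ∑ h ∈ Finset.Ico 1 K, (1 / l) * (exp (-(lam * (1 / (h : ℝ)))) - 1) ≤ 0 := by
      refine Finset.sum_nonpos fun h hh => ?_
      have h5 : 0 ≤ lam * (1 / (h : ℝ)) := by positivity
      have h6 := Real.exp_le_one_iff.mpr (show -(lam * (1 / (h : ℝ))) ≤ 0 by linarith)
      have h7 : 0 ≤ 1 / l := by positivity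
      nlinarith
    have h5 : ∑ h ∈ Finset.Ico K (n - 2), (1 / l) * (exp (-(lam * (1 / (h : ℝ)))) - 1) ≤
        ∑ h ∈ Finset.Ico K (n - 2), (1 / l) * (-(lam * (1 / (h : ℝ))) + lam ^ 2 * (1 / (h : ℝ) ^ 2)) := by
      refine Finset.sum_le_sum fun h hh => ?_
      rw [Finset.mem_Ico] at hh
      have hhK : (K : ℝ) ≤ h := by exact_mod_cast hh.1
      have hh0 : (0 : ℝ) < h := by linarith
      refine mul_le_mul_of_nonneg_left ?_ (by positivity)
      have h6 := nl_exp (y := lam * (1 / (h : ℝ))) (by positivity) (by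
        rw [mul_one_div, div_le_one hh0]
        linarith)
      refine h6.trans (le_of_eq ?_)
      ring
    linarith
  have h4 : ∑ h ∈ Finset.Ico K (n - 2), (1 / l) * (-(lam * (1 / (h : ℝ))) + lam ^ 2 * (1 / (h : ℝ) ^ 2)) =
      (1 / l) * (-(lam * ∑ h ∈ Finset.Ico K (n - 2), 1 / (h : ℝ)) +
        lam ^ 2 * ∑ h ∈ Finset.Ico K (n - 2), 1 / (h : ℝ) ^ 2) := by
    rw [← Finset.mul_sum, Finset.sum_add_distrib, Finset.sum_neg_distrib, ← Finset.mul_sum, ← Finset.mul_sum]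
  have h5 := nl_harm K (by omega) (n - 2) hKn
  have h6 := nl_sq K hK2 (n - 2) hKn
  rw [hcast] at h5 h6
  have h7 : log n - 1 ≤ log ((n : ℝ) - 2) := by
    have e1 : log ((n : ℝ) / 2) ≤ log ((n : ℝ) - 2) := Real.log_le_log (by linarith) (by linarith)
    rw [Real.log_div (by linarith) (by norm_num)] at e1
    have e2 : log 2 ≤ 1 := by
      have := Real.log_two_lt_d9
      linarith
    linarith
  have h8 : log K ≤ 1 + 2 * log l := by
    have e1 : log K ≤ log (2 * lam) := Real.log_le_log (by linarith) (by linarith)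
    rw [hlam, Real.log_mul (by norm_num) (by positivity), Real.log_pow] at e1
    have e2 : log 2 ≤ 1 := by
      have := Real.log_two_lt_d9
      linarith
    push_cast at e1
    linarith
  have h9 : lam ^ 2 * ∑ h ∈ Finset.Ico K (n - 2), 1 / (h : ℝ) ^ 2 ≤ lam := by
    have e1 : ∑ h ∈ Finset.Ico K (n - 2), 1 / (h : ℝ) ^ 2 ≤ 1 / lam := by
      have e2 : 1 / ((K : ℝ) - 1) ≤ 1 / lam := one_div_le_one_div_of_le (by linarith) hKlo
      have e3 : 0 ≤ 1 / ((n : ℝ) - 2 - 1) := by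
        have : 0 < (n : ℝ) - 2 - 1 := by linarith
        positivity
      linarith
    calc lam ^ 2 * ∑ h ∈ Finset.Ico K (n - 2), 1 / (h : ℝ) ^ 2 ≤ lam ^ 2 * (1 / lam) :=
          mul_le_mul_of_nonneg_left e1 (by positivity)
      _ = lam := by
        field_simp
  have h10 : l - 2 - 2 * log l ≤ ∑ h ∈ Finset.Ico K (n - 2), 1 / (h : ℝ) := by
    rw [← hl] at h7
    linarith
  have h11 : (1 / l) * (-(lam * ∑ h ∈ Finset.Ico K (n - 2), 1 / (h : ℝ)) +
        lam ^ 2 * ∑ h ∈ Finset.Ico K (n - 2), 1 / (h : ℝ) ^ 2) ≤ -(l * (l - 2 - 2 * log l)) + l := by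
    have e1 : -(lam * ∑ h ∈ Finset.Ico K (n - 2), 1 / (h : ℝ)) +
        lam ^ 2 * ∑ h ∈ Finset.Ico K (n - 2), 1 / (h : ℝ) ^ 2 ≤ -(lam * (l - 2 - 2 * log l)) + lam := by
      have e2 := mul_le_mul_of_nonneg_left h10 (show 0 ≤ lam by linarith)
      linarith
    calc (1 / l) * (-(lam * ∑ h ∈ Finset.Ico K (n - 2), 1 / (h : ℝ)) +
        lam ^ 2 * ∑ h ∈ Finset.Ico K (n - 2), 1 / (h : ℝ) ^ 2) ≤ (1 / l) * (-(lam * (l - 2 - 2 * log l)) + lam) :=
          mul_le_mul_of_nonneg_left e1 (by positivity)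
      _ = -(l * (l - 2 - 2 * log l)) + l := by
        rw [hlam]
        field_simp
  have h12 : lam * (1 - (2 + ε) * log l / l) = l ^ 2 - (2 + ε) * l * log l := by
    rw [hlam]
    field_simp
  have h13 : 5 * l ≤ ε * log l * l := mul_le_mul_of_nonneg_right hε hl0.le
  calc lam * (1 - (2 + ε) * log l / l) +
      ∑ m ∈ Finset.Ico 3 n, (1 / log m) * (exp (-(lam * (1 / ((n : ℝ) - m)))) - 1)
      ≤ (l ^ 2 - (2 + ε) * l * log l) + (-(l * (l - 2 - 2 * log l)) + l) := by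
        rw [h12]
        have := h1.trans (h2.le.trans (h3.trans (h4.le.trans h11)))
        linarith
    _ = 3 * l - ε * log l * l := by ring
    _ ≤ -(2 * l) := by linarith

theorem num_low {ε : ℝ} (hε : 0 < ε) : ∀ᶠ n : ℕ in atTop,
    (log n) ^ 2 * (1 - (2 + ε) * log (log n) / log n) +
      ∑ m ∈ Finset.Ico 3 n, (1 / log m) * (exp (-((log n) ^ 2 * (1 / ((n : ℝ) - m)))) - 1) ≤ -(2 * log n) := by
  have hlog : Tendsto (fun n : ℕ => log (n : ℝ)) atTop atTop :=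
    Real.tendsto_log_atTop.comp tendsto_natCast_atTop_atTop
  have hloglog : Tendsto (fun n : ℕ => log (log (n : ℝ))) atTop atTop := Real.tendsto_log_atTop.comp hlog
  have e1 := hlog.eventually_ge_atTop 2
  have e2 := hloglog.eventually_ge_atTop (5 / ε)
  have e3 : ∀ᶠ n : ℕ in atTop, (log (n : ℝ)) ^ 2 + 4 ≤ n := by
    have h1 := (Real.isLittleO_pow_log_id_atTop (n := 2)).bound (show (0 : ℝ) < 1 / 2 by norm_num)
    have h2 := tendsto_natCast_atTop_atTop (R := ℝ) |>.eventually h1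
    filter_upwards [h2, eventually_ge_atTop 8] with n hn hn8
    have hn8' : (8 : ℝ) ≤ n := by exact_mod_cast hn8
    rw [Real.norm_eq_abs, Real.norm_eq_abs, abs_of_nonneg (sq_nonneg _), id_eq,
      abs_of_nonneg (Nat.cast_nonneg _)] at hn
    linarith
  filter_upwards [e1, e2, e3] with n h1 h2 h3
  refine nl_core rfl h1 h3 ?_
  rw [div_le_iff₀ hε] at h2
  linarith

end Pool.Agent.H63.CM
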